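import Mathlib

/-!
# All solutions of `σ(a)/a = σ(b)/b`: counting the integers prime to a given one
-/

set_option autoImplicit false

namespace AFP

open Finset

/-- the number of the `m ≤ y` which no element of `S` divides -/
noncomputable def cnt (S : Finset ℕ) (y : ℝ) : ℕ :=
  ((Icc 1 ⌊y⌋₊).filter (fun m => ∀ p ∈ S, ¬ p ∣ m)).card

/-- the density -/
noncomputable def dn (S : Finset ℕ) : ℝ := ∏ p ∈ S, (1 - 1 / (p : ℝ))

theorem dn_pos {S : Finset ℕ} (hS : ∀ q ∈ S, q.Prime) : 0 < dn S := by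
  refine Finset.prod_pos fun p hp => ?_
  have h1 : (1 : ℝ) < p := by exact_mod_cast (hS p hp).one_lt
  have h2 : 1 / (p : ℝ) < 1 := by
    rw [div_lt_one (by linarith)]
    exact h1
  linarith

theorem dn_le_one {S : Finset ℕ} (hS : ∀ q ∈ S, q.Prime) : dn S ≤ 1 := by
  refine Finset.prod_le_one (fun p hp => ?_) (fun p hp => ?_)
  · have h1 : (1 : ℝ) < p := by exact_mod_cast (hS p hp).one_lt
    have h2 : 1 / (p : ℝ) < 1 := by
      rw [div_lt_one (by linarith)]
      exact h1
    linarith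
  · have h1 : (0 : ℝ) ≤ 1 / (p : ℝ) := by positivity
    linarith

theorem cnt_insert {S : Finset ℕ} {p : ℕ} (hp : p.Prime) (hS : ∀ q ∈ S, q.Prime) (hpS : p ∉ S)
    (y : ℝ) : cnt S y = cnt (insert p S) y + cnt S (y / p) := by
  classical
  have h1 : cnt (insert p S) y = (((Icc 1 ⌊y⌋₊).filter (fun m => ∀ q ∈ S, ¬ q ∣ m)).filter
      (fun m => ¬ p ∣ m)).card := by
    unfold cnt
    congr 1
    ext m
    simp only [mem_filter, mem_insert, forall_eq_or_imp]
    tauto
  have h2 : cnt S (y / p) = (((Icc 1 ⌊y⌋₊).filter (fun m => ∀ q ∈ S, ¬ q ∣ m)).filter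
      (fun m => p ∣ m)).card := by
    unfold cnt
    refine Finset.card_bij (fun m _ => p * m) ?_ ?_ ?_
    · intro m hm
      rw [mem_filter, mem_Icc, Nat.floor_div_natCast] at hm
      obtain ⟨⟨h3, h4⟩, h5⟩ := hm
      rw [mem_filter, mem_filter, mem_Icc]
      refine ⟨⟨⟨Nat.mul_pos hp.pos h3, ?_⟩, ?_⟩, dvd_mul_right p m⟩
      · rw [Nat.le_div_iff_mul_le hp.pos] at h4
        rw [mul_comm]
        exact h4
      · intro q hq hd
        rcases (Nat.Prime.dvd_mul (hS q hq)).1 hd with h6 | h6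
        · rw [Nat.prime_dvd_prime_iff_eq (hS q hq) hp] at h6
          exact hpS (h6 ▸ hq)
        · exact h5 q hq h6
    · intro m _ m' _ h
      exact Nat.eq_of_mul_eq_mul_left hp.pos h
    · intro n hn
      rw [mem_filter, mem_filter, mem_Icc] at hn
      obtain ⟨⟨⟨h3, h4⟩, h5⟩, m, rfl⟩ := hn
      refine ⟨m, ?_, rfl⟩
      rw [mem_filter, mem_Icc, Nat.floor_div_natCast, Nat.le_div_iff_mul_le hp.pos]
      refine ⟨⟨?_, ?_⟩, ?_⟩
      · rcases Nat.eq_zero_or_pos m with rfl | h6
        · omega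
        · exact h6
      · rw [mul_comm]
        exact h4
      · intro q hq hd
        exact h5 q hq (dvd_mul_of_dvd_right hd p)
  rw [h1, h2]
  unfold cnt
  have h3 := Finset.card_filter_add_card_filter_not
    (s := (Icc 1 ⌊y⌋₊).filter (fun m => ∀ q ∈ S, ¬ q ∣ m)) (fun m => p ∣ m)
  omega

theorem cnt_bound (S : Finset ℕ) (hS : ∀ q ∈ S, q.Prime) :
    ∀ y : ℝ, 0 ≤ y → |(cnt S y : ℝ) - y * dn S| ≤ 2 ^ S.card := by
  classical
  induction S using Finset.induction_on with
  | empty =>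
    intro y hy
    have h1 : cnt ∅ y = ⌊y⌋₊ := by
      unfold cnt
      simp
    rw [h1, dn, prod_empty, mul_one, card_empty, pow_zero, abs_le]
    have h2 := Nat.floor_le hy
    have h3 := Nat.lt_floor_add_one y
    constructor <;> linarith
  | insert p S hpS ih =>
    intro y hy
    have hp : p.Prime := hS p (mem_insert_self p S)
    have hS' : ∀ q ∈ S, q.Prime := fun q hq => hS q (mem_insert_of_mem hq)
    have h1 := ih hS' y hy
    have h2 := ih hS' (y / p) (by positivity)
    have h3 := cnt_insert hp hS' hpS y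
    have h4 : (cnt S y : ℝ) = cnt (insert p S) y + cnt S (y / p) := by exact_mod_cast h3
    have h5 : dn (insert p S) = (1 - 1 / (p : ℝ)) * dn S := by
      unfold dn
      rw [prod_insert hpS]
    rw [card_insert_of_notMem hpS, pow_succ, h5]
    have h6 : (cnt (insert p S) y : ℝ) - y * ((1 - 1 / (p : ℝ)) * dn S) =
        ((cnt S y : ℝ) - y * dn S) - ((cnt S (y / p) : ℝ) - y / p * dn S) := by
      rw [h4]
      ring
    rw [h6]
    have h7 := abs_sub ((cnt S y : ℝ) - y * dn S) ((cnt S (y / p) : ℝ) - y / p * dn S)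
    linarith

end AFP
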