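import Pool.Agent.AFP.Red
import Pool.Agent.AFP.Cop

/-!
# All solutions of `σ(a)/a = σ(b)/b`: decomposition into reduced solutions
-/

set_option autoImplicit false

namespace AFP

open Friendly Finset ArithmeticFunction

/-- a prime with the same exponent can be divided out -/
theorem divide {a b p : ℕ} (hsol : IsSolution a b) (hp : p ∈ (a * b).primeFactors)
    (heq : a.factorization p = b.factorization p) :
    ∃ e : ℕ, 0 < e ∧ p ^ e ∣ a ∧ p ^ e ∣ b ∧ IsSolution (a / p ^ e) (b / p ^ e) ∧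
      ¬ p ∣ a / p ^ e ∧ ¬ p ∣ b / p ^ e := by
  have ha : 0 < a := hsol.1
  have hb : 0 < b := hsol.1.trans hsol.2.1
  have hpp : p.Prime := Nat.prime_of_mem_primeFactors hp
  set e := a.factorization p with he
  have hmem : p ∣ a ∨ p ∣ b := (Nat.Prime.dvd_mul hpp).1 (Nat.dvd_of_mem_primeFactors hp)
  have he1 : e ≠ 0 := by
    rcases hmem with h | h
    · exact (hpp.factorization_pos_of_dvd ha.ne' h).ne'
    · rw [heq]; exact (hpp.factorization_pos_of_dvd hb.ne' h).ne'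
  have hda : p ^ e ∣ a := Nat.ordProj_dvd a p
  have hdb : p ^ e ∣ b := by rw [heq]; exact Nat.ordProj_dvd b p
  have hca : Nat.Coprime (p ^ e) (a / p ^ e) := (Nat.coprime_ordCompl hpp ha.ne').pow_left _
  have hcb : Nat.Coprime (p ^ e) (b / p ^ e) := by
    rw [heq]; exact (Nat.coprime_ordCompl hpp hb.ne').pow_left _
  have h1 : 1 < p ^ e := Nat.one_lt_pow he1 hpp.one_lt
  have hnd : ∀ c : ℕ, Nat.Coprime (p ^ e) c → ¬ p ∣ c := by
    intro c hc hd
    have h2 : p ∣ p ^ e := dvd_pow_self p he1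
    have h3 := Nat.dvd_gcd h2 hd
    rw [hc.gcd_eq_one] at h3
    exact hpp.one_lt.ne' (Nat.dvd_one.1 h3)
  refine ⟨e, Nat.pos_of_ne_zero he1, hda, hdb, ?_, hnd _ hca, hnd _ hcb⟩
  have ha1 : a = p ^ e * (a / p ^ e) := (Nat.mul_div_cancel' hda).symm
  have hb1 : b = p ^ e * (b / p ^ e) := (Nat.mul_div_cancel' hdb).symm
  have ha2 : 0 < a / p ^ e := Nat.div_pos (Nat.le_of_dvd ha hda) (by omega)
  have hb2 : 0 < b / p ^ e := Nat.div_pos (Nat.le_of_dvd hb hdb) (by omega)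
  refine ⟨ha2, ?_, ?_⟩
  · by_contra hle
    have h2 : p ^ e * (b / p ^ e) ≤ p ^ e * (a / p ^ e) := Nat.mul_le_mul_left _ (by omega)
    rw [← ha1, ← hb1] at h2
    have := hsol.2.1
    omega
  · have h3 : sigma 1 a = sigma 1 (p ^ e) * sigma 1 (a / p ^ e) := by
      conv_lhs => rw [ha1]
      exact isMultiplicative_sigma.map_mul_of_coprime hca
    have h4 : sigma 1 b = sigma 1 (p ^ e) * sigma 1 (b / p ^ e) := by
      conv_lhs => rw [hb1]
      exact isMultiplicative_sigma.map_mul_of_coprime hcb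
    have h5 := hsol.eq
    have h6 : sigma 1 (a / p ^ e) * (b / p ^ e) = sigma 1 (b / p ^ e) * (a / p ^ e) := by
      have h7 : (sigma 1 (p ^ e) * p ^ e) * (sigma 1 (a / p ^ e) * (b / p ^ e)) =
          (sigma 1 (p ^ e) * p ^ e) * (sigma 1 (b / p ^ e) * (a / p ^ e)) := by
        calc (sigma 1 (p ^ e) * p ^ e) * (sigma 1 (a / p ^ e) * (b / p ^ e))
            = (sigma 1 (p ^ e) * sigma 1 (a / p ^ e)) * (p ^ e * (b / p ^ e)) := by ring
          _ = (sigma 1 (p ^ e) * sigma 1 (b / p ^ e)) * (p ^ e * (a / p ^ e)) := by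
              rw [← h3, ← h4, ← ha1, ← hb1, h5]
          _ = _ := by ring
      exact Nat.eq_of_mul_eq_mul_left
        (Nat.mul_pos (sigma_pos' (by positivity)) (by positivity)) h7
    have ha3 : ((a / p ^ e : ℕ) : ℚ) ≠ 0 := by exact_mod_cast ha2.ne'
    have hb3 : ((b / p ^ e : ℕ) : ℚ) ≠ 0 := by exact_mod_cast hb2.ne'
    rw [div_eq_div_iff ha3 hb3]
    exact_mod_cast h6

/-- `m` is prime to `n` -/
theorem coprime_iff {m n : ℕ} : (∀ p ∈ n.primeFactors, ¬ p ∣ m) → n ≠ 0 → Nat.Coprime m n := by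
  intro h hn
  by_contra hcon
  obtain ⟨p, hp, h1, h2⟩ := Nat.Prime.not_coprime_iff_dvd.1 hcon
  exact h p (Nat.mem_primeFactors.2 ⟨hp, h2, hn⟩) h1

/-- each solution is a multiple of a reduced one -/
theorem exists_red : ∀ A B : ℕ, IsSolution A B → ∃ a b m : ℕ, IsRed a b ∧
    (∀ p ∈ (a * b).primeFactors, ¬ p ∣ m) ∧ A = m * a ∧ B = m * b := by
  intro A
  induction A using Nat.strong_induction_on with
  | _ A ih =>
  intro B hsol
  by_cases hred : IsRed A B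
  · refine ⟨A, B, 1, hred, ?_, (one_mul A).symm, (one_mul B).symm⟩
    intro p hp hd
    exact (Nat.prime_of_mem_primeFactors hp).one_lt.ne' (Nat.dvd_one.1 hd)
  · unfold IsRed at hred
    push Not at hred
    obtain ⟨p, hp, heq⟩ := hred hsol
    obtain ⟨e, he, hda, hdb, hs, hna, hnb⟩ := divide hsol hp heq
    have hpp : p.Prime := Nat.prime_of_mem_primeFactors hp
    have hA : 0 < A := hsol.1
    have hlt : A / p ^ e < A := Nat.div_lt_self hA (Nat.one_lt_pow he.ne' hpp.one_lt)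
    obtain ⟨a, b, m, h1, h2, h3, h4⟩ := ih _ hlt _ hs
    refine ⟨a, b, p ^ e * m, h1, ?_, ?_, ?_⟩
    · intro q hq hd
      have hqp : q.Prime := Nat.prime_of_mem_primeFactors hq
      rcases (Nat.Prime.dvd_mul hqp).1 hd with h5 | h5
      · have h6 : q = p := (Nat.prime_dvd_prime_iff_eq hqp hpp).1 (hqp.dvd_of_dvd_pow h5)
        subst h6
        rcases (Nat.Prime.dvd_mul hqp).1 (Nat.dvd_of_mem_primeFactors hq) with h7 | h7
        · exact hna (h3 ▸ dvd_mul_of_dvd_right h7 m)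
        · exact hnb (h4 ▸ dvd_mul_of_dvd_right h7 m)
      · exact h2 q hq h5
    · rw [mul_assoc, ← h3]
      exact (Nat.mul_div_cancel' hda).symm
    · rw [mul_assoc, ← h4]
      exact (Nat.mul_div_cancel' hdb).symm

theorem mul_sol {a b m : ℕ} (h : IsSolution a b) (hm : 0 < m)
    (hc : ∀ p ∈ (a * b).primeFactors, ¬ p ∣ m) : IsSolution (m * a) (m * b) := by
  have ha : 0 < a := h.1
  have hb : 0 < b := h.1.trans h.2.1
  have hcop : Nat.Coprime m (a * b) := coprime_iff hc (Nat.mul_pos ha hb).ne'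
  have h1 : sigma 1 (m * a) = sigma 1 m * sigma 1 a :=
    isMultiplicative_sigma.map_mul_of_coprime (Nat.Coprime.coprime_mul_right_right hcop)
  have h2 : sigma 1 (m * b) = sigma 1 m * sigma 1 b :=
    isMultiplicative_sigma.map_mul_of_coprime (Nat.Coprime.coprime_mul_left_right hcop)
  refine ⟨Nat.mul_pos hm ha, Nat.mul_lt_mul_of_pos_left h.2.1 hm, ?_⟩
  have ha3 : ((m * a : ℕ) : ℚ) ≠ 0 := by exact_mod_cast (Nat.mul_pos hm ha).ne'
  have hb3 : ((m * b : ℕ) : ℚ) ≠ 0 := by exact_mod_cast (Nat.mul_pos hm hb).ne'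
  rw [div_eq_div_iff ha3 hb3]
  have h3 : sigma 1 (m * a) * (m * b) = sigma 1 (m * b) * (m * a) := by
    rw [h1, h2]
    calc sigma 1 m * sigma 1 a * (m * b) = sigma 1 m * m * (sigma 1 a * b) := by ring
      _ = sigma 1 m * m * (sigma 1 b * a) := by rw [h.eq]
      _ = _ := by ring
  exact_mod_cast h3

/-- the exponents of the cofactor -/
theorem fact_cof {a b m : ℕ} (h : IsRed a b) (hm : 0 < m)
    (hc : ∀ p ∈ (a * b).primeFactors, ¬ p ∣ m) (p : ℕ) :
    m.factorization p = if (m * a).factorization p = (m * b).factorization p then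
      (m * a).factorization p else 0 := by
  have ha : 0 < a := h.1.1
  have hb : 0 < b := h.1.1.trans h.1.2.1
  rw [Nat.factorization_mul hm.ne' ha.ne', Nat.factorization_mul hm.ne' hb.ne', Finsupp.add_apply,
    Finsupp.add_apply]
  by_cases hp : p ∈ (a * b).primeFactors
  · have h1 := h.2 p hp
    rw [if_neg (by omega)]
    exact Nat.factorization_eq_zero_of_not_dvd (hc p hp)
  · rw [Nat.primeFactors_mul ha.ne' hb.ne', mem_union, not_or] at hp
    simp only [← Nat.support_factorization, Finsupp.notMem_support_iff] at hp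
    rw [hp.1, hp.2, add_zero, if_pos rfl]

theorem unique {a b m a' b' m' : ℕ} (h : IsRed a b) (hm : 0 < m)
    (hc : ∀ p ∈ (a * b).primeFactors, ¬ p ∣ m) (h' : IsRed a' b') (hm' : 0 < m')
    (hc' : ∀ p ∈ (a' * b').primeFactors, ¬ p ∣ m') (h1 : m * a = m' * a') (h2 : m * b = m' * b') :
    a = a' ∧ b = b' ∧ m = m' := by
  have h3 : m = m' := by
    apply Nat.eq_of_factorization_eq hm.ne' hm'.ne'
    intro p
    rw [fact_cof h hm hc p, fact_cof h' hm' hc' p, h1, h2]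
  subst h3
  exact ⟨Nat.eq_of_mul_eq_mul_left hm h1, Nat.eq_of_mul_eq_mul_left hm h2, rfl⟩

open Classical in
/-- the solutions with `b ≤ X` -/
noncomputable def solF (X : ℕ) : Finset (ℕ × ℕ) :=
  ((Icc 1 X) ×ˢ (Icc 1 X)).filter (fun x => IsSolution x.1 x.2)

open Classical in
/-- the reduced solutions with `b ≤ X` -/
noncomputable def redF (X : ℕ) : Finset (ℕ × ℕ) :=
  ((Icc 1 X) ×ˢ (Icc 1 X)).filter (fun x => IsRed x.1 x.2)

theorem mem_solF {X : ℕ} {x : ℕ × ℕ} : x ∈ solF X ↔ IsSolution x.1 x.2 ∧ x.2 ≤ X := by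
  classical
  unfold solF
  rw [mem_filter, mem_product, mem_Icc, mem_Icc]
  constructor
  · exact fun h => ⟨h.2, h.1.2.2⟩
  · rintro ⟨⟨h1, h2, h3⟩, h4⟩
    exact ⟨⟨⟨h1, by omega⟩, ⟨by omega, h4⟩⟩, h1, h2, h3⟩

theorem mem_redF {X : ℕ} {x : ℕ × ℕ} : x ∈ redF X ↔ IsRed x.1 x.2 ∧ x.2 ≤ X := by
  classical
  unfold redF
  rw [mem_filter, mem_product, mem_Icc, mem_Icc]
  constructor
  · exact fun h => ⟨h.2, h.1.2.2⟩
  · rintro ⟨⟨⟨h1, h2, h3⟩, h5⟩, h4⟩
    exact ⟨⟨⟨h1, by omega⟩, ⟨by omega, h4⟩⟩, ⟨h1, h2, h3⟩, h5⟩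

/-- the number of the solutions -/
theorem card_solF (x : ℝ) : (solF ⌊x⌋₊).card =
    ∑ q ∈ redF ⌊x⌋₊, cnt (q.1 * q.2).primeFactors (x / q.2) := by
  classical
  unfold cnt
  rw [← Finset.card_sigma]
  symm
  refine Finset.card_bij (fun s _ => (s.2 * s.1.1, s.2 * s.1.2)) ?_ ?_ ?_
  · rintro ⟨⟨a, b⟩, m⟩ hs
    rw [Finset.mem_sigma, mem_redF, mem_filter, mem_Icc, Nat.floor_div_natCast] at hs
    obtain ⟨⟨h1, h2⟩, ⟨h3, h4⟩, h5⟩ := hs
    dsimp only at h1 h2 h3 h4 h5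
    have hb : 0 < b := h1.1.1.trans h1.1.2.1
    rw [mem_solF]
    refine ⟨mul_sol h1.1 h3 h5, ?_⟩
    exact (Nat.le_div_iff_mul_le hb).1 h4
  · rintro ⟨⟨a, b⟩, m⟩ hs ⟨⟨a', b'⟩, m'⟩ hs' heq
    rw [Finset.mem_sigma, mem_redF, mem_filter, mem_Icc] at hs hs'
    obtain ⟨⟨h1, h2⟩, ⟨h3, h4⟩, h5⟩ := hs
    obtain ⟨⟨h1', h2'⟩, ⟨h3', h4'⟩, h5'⟩ := hs'
    dsimp only at h1 h3 h5 h1' h3' h5' heq
    rw [Prod.mk.injEq] at heq
    obtain ⟨e1, e2, e3⟩ := unique h1 h3 h5 h1' h3' h5' heq.1 heq.2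
    subst e1 e2 e3
    rfl
  · rintro ⟨A, B⟩ hAB
    rw [mem_solF] at hAB
    obtain ⟨h1, h2⟩ := hAB
    dsimp only at h1 h2
    obtain ⟨a, b, m, h3, h4, rfl, rfl⟩ := exists_red A B h1
    have hb : 0 < b := h3.1.1.trans h3.1.2.1
    have hm : 0 < m := by
      rcases Nat.eq_zero_or_pos m with rfl | h5
      · have := h1.1
        omega
      · exact h5
    refine ⟨⟨(a, b), m⟩, ?_, rfl⟩
    rw [Finset.mem_sigma, mem_redF, mem_filter, mem_Icc, Nat.floor_div_natCast]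
    refine ⟨⟨h3, ?_⟩, ⟨hm, ?_⟩, h4⟩
    · exact (Nat.le_mul_of_pos_left b hm).trans h2
    · exact (Nat.le_div_iff_mul_le hb).2 h2

end AFP
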