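import Pool.Agent.AFP.Main

/-!
# All solutions of `σ(a)/a = σ(b)/b`: the two error terms
-/

set_option autoImplicit false

namespace AFP

open Friendly Finset ArithmeticFunction

/-! ### The error term `x ^ (2/5 + ε)` -/

theorem redF_le (ε : ℝ) (hε : 0 < ε) : ∃ C : ℝ, 0 < C ∧ ∀ y : ℝ, 1 ≤ y →
    ((redF ⌊y⌋₊).card : ℝ) ≤ C * y ^ ((2 : ℝ) / 5 + ε) := by
  obtain ⟨C, hC, h⟩ := card_redPairs_le (ε / 2) (by linarith)
  refine ⟨C, hC, fun y hy => ?_⟩
  have hy0 : 0 ≤ y := by linarith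
  set X := ⌊y⌋₊ with hX
  have hX1 : 1 ≤ X := Nat.le_floor (by exact_mod_cast hy)
  have hXy : (X : ℝ) ≤ y := Nat.floor_le hy0
  have h1 : redF X ⊆ redPairs (X ^ 2) := by
    intro q hq
    rw [mem_redF] at hq
    rw [mem_redPairs]
    refine ⟨hq.1, ?_⟩
    have h2 := hq.1.1.2.1
    have h3 := hq.2
    rw [pow_two]
    exact Nat.mul_le_mul (by omega) h3
  have h2 : ((redF X).card : ℝ) ≤ (redPairs (X ^ 2)).card := by exact_mod_cast card_le_card h1
  refine h2.trans ((h (X ^ 2) (Nat.one_le_pow _ _ (by omega))).trans ?_)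
  refine mul_le_mul_of_nonneg_left ?_ hC.le
  have h3 : (((X ^ 2 : ℕ) : ℝ)) ^ ((1 : ℝ) / 5 + ε / 2) = (X : ℝ) ^ ((2 : ℝ) / 5 + ε) := by
    push_cast
    rw [← Real.rpow_natCast, ← Real.rpow_mul (Nat.cast_nonneg X)]
    congr 1
    push_cast
    ring
  rw [h3]
  exact Real.rpow_le_rpow (Nat.cast_nonneg X) hXy (by linarith)

theorem omega_pow (η : ℝ) (hη : 0 < η) : ∃ C : ℝ, 0 < C ∧ ∀ n : ℕ, 1 ≤ n →
    (2 : ℝ) ^ n.primeFactors.card ≤ C * (n : ℝ) ^ η := by
  obtain ⟨k, hk⟩ := exists_nat_ge (Real.exp (1 / η))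
  have hK2 : 2 ≤ k + 2 := by omega
  have hlog : 1 / η ≤ Real.log ((k + 2 : ℕ) : ℝ) := by
    rw [Real.le_log_iff_exp_le (by positivity)]
    push_cast
    linarith
  have hlogK : 0 < Real.log ((k + 2 : ℕ) : ℝ) := lt_of_lt_of_le (by positivity) hlog
  refine ⟨Real.exp ((k + 2 : ℕ) : ℝ), Real.exp_pos _, fun n hn => ?_⟩
  have hn0 : (0 : ℝ) < n := by exact_mod_cast hn
  have h1 := omega_le n (k + 2) (by omega) hK2
  have hlogn : 0 ≤ Real.log n := Real.log_nonneg (by exact_mod_cast hn)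
  have h2 : Real.log n / Real.log ((k + 2 : ℕ) : ℝ) ≤ η * Real.log n := by
    rw [div_le_iff₀ hlogK]
    rw [div_le_iff₀ hη] at hlog
    nlinarith
  have h3 : (n.primeFactors.card : ℝ) ≤ ((k + 2 : ℕ) : ℝ) + η * Real.log n := by linarith
  have h4 : (2 : ℝ) ^ n.primeFactors.card ≤ Real.exp (n.primeFactors.card) := by
    have h5 : (2 : ℝ) ≤ Real.exp 1 := by
      have := Real.add_one_le_exp (1 : ℝ)
      linarith
    calc (2 : ℝ) ^ n.primeFactors.card ≤ (Real.exp 1) ^ n.primeFactors.card :=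
          pow_le_pow_left₀ (by norm_num) h5 _
      _ = Real.exp (n.primeFactors.card) := by
          rw [← Real.exp_nat_mul, mul_one]
  refine h4.trans ?_
  rw [Real.rpow_def_of_pos hn0, ← Real.exp_add]
  apply Real.exp_le_exp.2
  linarith

theorem unconditional (ε : ℝ) (hε : 0 < ε) : ∃ C : ℝ, ∀ x : ℝ, 1 ≤ x →
    |((solF ⌊x⌋₊).card : ℝ) - cc * x| ≤ C * x ^ ((2 : ℝ) / 5 + ε) := by
  set δ : ℝ := min ε (1 / 5) / 2 with hδ
  have hm1 : min ε (1 / 5) ≤ ε := min_le_left _ _
  have hm2 : min ε (1 / 5) ≤ 1 / 5 := min_le_right _ _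
  have hm3 : 0 < min ε (1 / 5) := lt_min hε (by norm_num)
  have hδ0 : 0 < δ := by positivity
  obtain ⟨C1, hC1, h1⟩ := redF_le δ hδ0
  obtain ⟨C2, hC2, h2⟩ := omega_pow (δ / 2) (by linarith)
  set l : ℝ := (2 : ℝ) ^ ((2 : ℝ) / 5 + δ) with hl
  have hl0 : 0 ≤ l := by positivity
  have hl2 : l < 2 := by
    calc l < (2 : ℝ) ^ (1 : ℝ) := by
          apply Real.rpow_lt_rpow_of_exponent_lt (by norm_num)
          linarith
      _ = 2 := Real.rpow_one 2
  have hK : 0 ≤ 2 * l / (2 - l) := div_nonneg (by linarith) (by linarith)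
  obtain ⟨-, h3⟩ := general (fun y => C1 * y ^ ((2 : ℝ) / 5 + δ)) l hl0 hl2 h1 (by
    intro y hy
    have hy0 : (0 : ℝ) ≤ y := by linarith
    change C1 * (2 * y) ^ ((2 : ℝ) / 5 + δ) ≤ l * (C1 * y ^ ((2 : ℝ) / 5 + δ))
    rw [Real.mul_rpow (by norm_num) hy0]
    exact le_of_eq (by ring))
  refine ⟨C1 * (C2 + 2 * l / (2 - l)), fun x hx => ?_⟩
  have hx0 : 0 < x := by linarith
  have h4 := h3 x hx (C2 * x ^ δ) (by positivity) (by
    intro q hq
    rw [mem_redF] at hq
    obtain ⟨h5, h6⟩ := hq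
    have h7 : 0 < q.1 := h5.1.1
    have h8 : q.1 < q.2 := h5.1.2.1
    have h9 : (q.2 : ℝ) ≤ x := le_trans (by exact_mod_cast h6) (Nat.floor_le hx0.le)
    have h10 : (q.1 : ℝ) ≤ x := le_trans (by exact_mod_cast h8.le) h9
    refine (h2 (q.1 * q.2) (Nat.mul_pos h7 (by omega))).trans ?_
    refine mul_le_mul_of_nonneg_left ?_ hC2.le
    calc (((q.1 * q.2 : ℕ) : ℝ)) ^ (δ / 2) ≤ (x ^ (2 : ℝ)) ^ (δ / 2) := by
          apply Real.rpow_le_rpow (Nat.cast_nonneg _) _ (by linarith)
          push_cast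
          rw [Real.rpow_two, pow_two]
          exact mul_le_mul h10 h9 (Nat.cast_nonneg _) hx0.le
      _ = x ^ δ := by
          rw [← Real.rpow_mul hx0.le]
          congr 1
          ring)
  refine h4.trans ?_
  have h5 : (1 : ℝ) ≤ x ^ δ := Real.one_le_rpow hx hδ0.le
  have h6 : C2 * x ^ δ + 2 * l / (2 - l) ≤ (C2 + 2 * l / (2 - l)) * x ^ δ := by nlinarith
  calc C1 * x ^ ((2 : ℝ) / 5 + δ) * (C2 * x ^ δ + 2 * l / (2 - l))
      ≤ C1 * x ^ ((2 : ℝ) / 5 + δ) * ((C2 + 2 * l / (2 - l)) * x ^ δ) :=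
        mul_le_mul_of_nonneg_left h6 (by positivity)
    _ = C1 * (C2 + 2 * l / (2 - l)) * x ^ ((2 : ℝ) / 5 + δ + δ) := by
        rw [Real.rpow_add hx0 ((2 : ℝ) / 5 + δ) δ]
        ring
    _ ≤ C1 * (C2 + 2 * l / (2 - l)) * x ^ ((2 : ℝ) / 5 + ε) := by
        refine mul_le_mul_of_nonneg_left ?_ (by positivity)
        exact Real.rpow_le_rpow_of_exponent_le hx (by linarith)

/-! ### Positivity -/

theorem sol_6_28 : IsSolution 6 28 := by
  refine ⟨by norm_num, by norm_num, ?_⟩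
  have h1 : sigma 1 6 = 12 := by decide
  have h2 : sigma 1 28 = 56 := by decide
  rw [h1, h2]
  norm_num

theorem cc_pos : 0 < cc := by
  classical
  obtain ⟨C1, hC1, h1⟩ := redF_le (1 / 10) (by norm_num)
  have hl2 : (2 : ℝ) ^ ((2 : ℝ) / 5 + 1 / 10) < 2 := by
    calc (2 : ℝ) ^ ((2 : ℝ) / 5 + 1 / 10) < (2 : ℝ) ^ (1 : ℝ) := by
          apply Real.rpow_lt_rpow_of_exponent_lt (by norm_num)
          norm_num
      _ = 2 := Real.rpow_one 2
  obtain ⟨hsum, -⟩ := general (fun y => C1 * y ^ ((2 : ℝ) / 5 + 1 / 10))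
    ((2 : ℝ) ^ ((2 : ℝ) / 5 + 1 / 10)) (by positivity) hl2 h1 (by
    intro y hy
    have hy0 : (0 : ℝ) ≤ y := by linarith
    change C1 * (2 * y) ^ ((2 : ℝ) / 5 + 1 / 10) ≤
      (2 : ℝ) ^ ((2 : ℝ) / 5 + 1 / 10) * (C1 * y ^ ((2 : ℝ) / 5 + 1 / 10))
    rw [Real.mul_rpow (by norm_num) hy0]
    exact le_of_eq (by ring))
  obtain ⟨a, b, m, h2, -, -, -⟩ := exists_red 6 28 sol_6_28
  have hb : 0 < b := h2.1.1.trans h2.1.2.1
  have h3 : 0 < rho b := by
    unfold rho
    refine lt_of_lt_of_le (dn_pos (S := (a * b).primeFactors)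
      fun _ hq => Nat.prime_of_mem_primeFactors hq) ?_
    refine single_le_sum (f := fun a => dn (a * b).primeFactors)
      (fun _ _ => (dn_pos fun _ hq => Nat.prime_of_mem_primeFactors hq).le) ?_
    rw [mem_filter, mem_Icc]
    exact ⟨⟨h2.1.1, h2.1.2.1.le⟩, h2⟩
  have h4 : rho b / b ≤ cc :=
    hsum.le_tsum b (fun n _ => div_nonneg (rho_nonneg n) (Nat.cast_nonneg n))
  refine lt_of_lt_of_le ?_ h4
  have hb' : (0 : ℝ) < b := by exact_mod_cast hb
  positivity

/-! ### The error term if only finitely many primes occur in primitive solutions -/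

theorem exists_prim : ∀ A B : ℕ, IsSolution A B → ∃ a b d : ℕ, IsPrimitive a b ∧
    A = d * a ∧ B = d * b := by
  intro A
  induction A using Nat.strong_induction_on with
  | _ A ih =>
  intro B hsol
  by_cases hprim : IsPrimitive A B
  · exact ⟨A, B, 1, hprim, (one_mul A).symm, (one_mul B).symm⟩
  · unfold IsPrimitive at hprim
    push Not at hprim
    obtain ⟨d, hd1, hdA, hdB, hs⟩ := hprim hsol
    obtain ⟨a, b, e, h1, h2, h3⟩ := ih _ (Nat.div_lt_self hsol.1 hd1) _ hs
    refine ⟨a, b, d * e, h1, ?_, ?_⟩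
    · rw [mul_assoc, ← h2]
      exact (Nat.mul_div_cancel' hdA).symm
    · rw [mul_assoc, ← h3]
      exact (Nat.mul_div_cancel' hdB).symm

theorem red_primes (S : Finset ℕ) (hS : ∀ a b, IsPrimitive a b → (a * b).primeFactors ⊆ S)
    {A B : ℕ} (h : IsRed A B) : (A * B).primeFactors ⊆ S := by
  intro p hp
  by_contra hpS
  obtain ⟨a, b, d, h1, rfl, rfl⟩ := exists_prim A B h.1
  have hda := h.1.1
  have hdb : 0 < d * b := h.1.1.trans h.1.2.1
  have hd : d ≠ 0 := by
    rintro rfl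
    simp at hda
  have ha : a ≠ 0 := by
    rintro rfl
    simp at hda
  have hb : b ≠ 0 := by
    rintro rfl
    simp at hdb
  have h2 : p ∉ (a * b).primeFactors := fun h3 => hpS (hS a b h1 h3)
  rw [Nat.primeFactors_mul ha hb, mem_union, not_or] at h2
  simp only [← Nat.support_factorization, Finsupp.notMem_support_iff] at h2
  apply h.2 p hp
  rw [Nat.factorization_mul hd ha, Nat.factorization_mul hd hb, Finsupp.add_apply,
    Finsupp.add_apply, h2.1, h2.2]

/-- the number of the integers with prime factors in `S` -/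
theorem smooth_card (S : Finset ℕ) (X : ℕ) :
    ((Icc 1 X).filter (fun n => n.primeFactors ⊆ S)).card ≤ (Nat.log 2 X + 1) ^ S.card := by
  classical
  have h1 : Fintype.card (S → Fin (Nat.log 2 X + 1)) = (Nat.log 2 X + 1) ^ S.card := by
    rw [Fintype.card_fun, Fintype.card_fin, Fintype.card_coe]
  rw [← h1, ← Finset.card_univ]
  refine card_le_card_of_injOn
    (fun n p => ⟨min (n.factorization p.1) (Nat.log 2 X), by omega⟩)
    (fun _ _ => mem_coe.2 (mem_univ _)) ?_
  intro n hn n' hn' heq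
  rw [mem_coe, mem_filter, mem_Icc] at hn hn'
  have hle : ∀ k : ℕ, 1 ≤ k → k ≤ X → ∀ p : ℕ, k.factorization p ≤ Nat.log 2 X := by
    intro k hk hkX p
    by_cases hp : p.Prime
    · apply Nat.le_log_of_pow_le (by norm_num)
      calc 2 ^ k.factorization p ≤ p ^ k.factorization p := Nat.pow_le_pow_left hp.two_le _
        _ ≤ k := Nat.le_of_dvd hk (Nat.ordProj_dvd k p)
        _ ≤ X := hkX
    · rw [Nat.factorization_eq_zero_of_not_prime k hp]
      exact Nat.zero_le _
  apply Nat.eq_of_factorization_eq (by omega) (by omega)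
  intro p
  by_cases hp : p ∈ S
  · have h2 := congrFun heq ⟨p, hp⟩
    simp only [Fin.mk.injEq] at h2
    have h3 := hle n hn.1.1 hn.1.2 p
    have h4 := hle n' hn'.1.1 hn'.1.2 p
    omega
  · have h2 : n.factorization p = 0 := by
      rw [← Finsupp.notMem_support_iff, Nat.support_factorization]
      exact fun h => hp (hn.2 h)
    have h3 : n'.factorization p = 0 := by
      rw [← Finsupp.notMem_support_iff, Nat.support_factorization]
      exact fun h => hp (hn'.2 h)
    rw [h2, h3]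

theorem exp_half_lt : Real.exp (1 / 2) < 2 := by
  have h1 : Real.exp (1 / 2) ^ 2 = Real.exp 1 := by
    rw [← Real.exp_nat_mul]
    congr 1
    norm_num
  have h2 := Real.exp_one_lt_d9
  have h3 := Real.exp_pos (1 / 2)
  nlinarith

theorem conditional (S : Finset ℕ) (hS : ∀ a b, IsPrimitive a b → (a * b).primeFactors ⊆ S) :
    ∃ C : ℝ, ∀ x : ℝ, 1 ≤ x →
      |((solF ⌊x⌋₊).card : ℝ) - cc * x| ≤ C * (1 + Real.log x) ^ (2 * S.card) := by
  classical
  set n := 2 * S.card with hn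
  set A0 : ℝ := 4 * n + 2 with hA0
  have hA0p : 0 < A0 := by positivity
  set l : ℝ := Real.exp (1 / 2) with hl
  have hl0 : 0 ≤ l := (Real.exp_pos _).le
  have hl2 : l < 2 := exp_half_lt
  have hK : 0 ≤ 2 * l / (2 - l) := div_nonneg (by linarith) (by linarith)
  obtain ⟨-, h3⟩ := general (fun y => (A0 + 2 * Real.log y) ^ n) l hl0 hl2 (by
    intro y hy
    have hlog : 0 ≤ Real.log y := Real.log_nonneg hy
    set X := ⌊y⌋₊ with hX
    have hX1 : 1 ≤ X := Nat.le_floor (by exact_mod_cast hy)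
    set T := (Icc 1 X).filter (fun n => n.primeFactors ⊆ S) with hT
    have h1 : redF X ⊆ T ×ˢ T := by
      intro q hq
      rw [mem_redF] at hq
      obtain ⟨h4, h5⟩ := hq
      have h6 := red_primes S hS h4
      have h7 : 0 < q.1 := h4.1.1
      have h8 : q.1 < q.2 := h4.1.2.1
      rw [Nat.primeFactors_mul (by omega) (by omega), union_subset_iff] at h6
      rw [mem_product, hT, mem_filter, mem_filter, mem_Icc, mem_Icc]
      exact ⟨⟨⟨h7, by omega⟩, h6.1⟩, ⟨by omega, h5⟩, h6.2⟩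
    have h2 : (redF X).card ≤ (Nat.log 2 X + 1) ^ n := by
      calc (redF X).card ≤ (T ×ˢ T).card := card_le_card h1
        _ = T.card * T.card := card_product _ _
        _ ≤ (Nat.log 2 X + 1) ^ S.card * (Nat.log 2 X + 1) ^ S.card :=
            Nat.mul_le_mul (smooth_card S X) (smooth_card S X)
        _ = _ := by rw [← pow_add, hn, two_mul]
    have h4 : (Nat.log 2 X : ℝ) ≤ 2 * Real.log y := by
      have h5 : (2 : ℝ) ^ Nat.log 2 X ≤ y := by
        have h6 : 2 ^ Nat.log 2 X ≤ X := Nat.pow_log_le_self 2 (by omega)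
        calc (2 : ℝ) ^ Nat.log 2 X ≤ X := by exact_mod_cast h6
          _ ≤ y := Nat.floor_le (by linarith)
      have h6 := Real.log_le_log (by positivity) h5
      rw [Real.log_pow] at h6
      have h7 := Real.log_two_gt_d9
      have h8 : (0 : ℝ) ≤ Nat.log 2 X := Nat.cast_nonneg _
      nlinarith
    calc ((redF X).card : ℝ) ≤ ((Nat.log 2 X + 1 : ℕ) : ℝ) ^ n := by exact_mod_cast h2
      _ ≤ (A0 + 2 * Real.log y) ^ n := by
          apply pow_le_pow_left₀ (by positivity)
          push_cast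
          have : (0 : ℝ) ≤ n := Nat.cast_nonneg n
          linarith) (by
    intro y hy
    have hlog : 0 ≤ Real.log y := Real.log_nonneg hy
    change (A0 + 2 * Real.log (2 * y)) ^ n ≤ l * (A0 + 2 * Real.log y) ^ n
    rw [Real.log_mul (by norm_num) (by linarith)]
    set u := A0 + 2 * Real.log y with hu
    have hu0 : A0 ≤ u := by linarith
    have hup : 0 < u := by linarith
    have h1 : A0 + 2 * (Real.log 2 + Real.log y) ≤ u * (1 + 2 / A0) := by
      have h2 : Real.log 2 < 1 := by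
        have := Real.log_two_lt_d9
        linarith
      have h3 : 2 ≤ u * (2 / A0) := by
        rw [mul_div_assoc', le_div_iff₀ hA0p]
        linarith
      have h4 : u * (1 + 2 / A0) = u + u * (2 / A0) := by ring
      rw [h4]
      linarith
    have h2log : 0 < Real.log 2 := Real.log_pos (by norm_num)
    calc (A0 + 2 * (Real.log 2 + Real.log y)) ^ n ≤ (u * (1 + 2 / A0)) ^ n :=
          pow_le_pow_left₀ (by linarith) h1 n
      _ = u ^ n * (1 + 2 / A0) ^ n := mul_pow _ _ _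
      _ ≤ u ^ n * l := by
          refine mul_le_mul_of_nonneg_left ?_ (by positivity)
          calc (1 + 2 / A0) ^ n ≤ (Real.exp (2 / A0)) ^ n := by
                apply pow_le_pow_left₀ (by positivity)
                have := Real.add_one_le_exp (2 / A0)
                linarith
            _ = Real.exp (n * (2 / A0)) := by rw [← Real.exp_nat_mul]
            _ ≤ l := by
                apply Real.exp_le_exp.2
                rw [mul_div_assoc', div_le_div_iff₀ hA0p (by norm_num)]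
                rw [hA0]
                linarith
      _ = l * u ^ n := mul_comm _ _)
  refine ⟨(A0 + 2) ^ n * (2 ^ S.card + 2 * l / (2 - l)), fun x hx => ?_⟩
  have hlog : 0 ≤ Real.log x := Real.log_nonneg hx
  have h4 := h3 x hx (2 ^ S.card) (by positivity) (by
    intro q hq
    rw [mem_redF] at hq
    exact pow_le_pow_right₀ (by norm_num) (card_le_card (red_primes S hS hq.1)))
  refine h4.trans ?_
  have h5 : (A0 + 2 * Real.log x) ^ n ≤ (A0 + 2) ^ n * (1 + Real.log x) ^ n := by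
    rw [← mul_pow]
    apply pow_le_pow_left₀ (by positivity)
    nlinarith
  calc (A0 + 2 * Real.log x) ^ n * (2 ^ S.card + 2 * l / (2 - l))
      ≤ (A0 + 2) ^ n * (1 + Real.log x) ^ n * (2 ^ S.card + 2 * l / (2 - l)) :=
        mul_le_mul_of_nonneg_right h5 (by positivity)
    _ = _ := by ring

end AFP
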