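import Mathlib

/-!
# All solutions of `σ(a)/a = σ(b)/b`: the tail of a sum with weights `1/n`
-/

set_option autoImplicit false

namespace AFP

open Finset

/-- the finite sums -/
noncomputable def ps (ρ : ℕ → ℝ) (y : ℝ) : ℝ := ∑ n ∈ Icc 1 ⌊y⌋₊, ρ n / n

theorem ps_step (ρ : ℕ → ℝ) (hρ : ∀ n, 0 ≤ ρ n) (g : ℝ → ℝ)
    (hg : ∀ y : ℝ, 1 ≤ y → ∑ n ∈ Icc 1 ⌊y⌋₊, ρ n ≤ g y) (y : ℝ) (hy : 1 ≤ y) :
    ps ρ (2 * y) ≤ ps ρ y + g (2 * y) / y := by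
  have hle : ⌊y⌋₊ ≤ ⌊2 * y⌋₊ := Nat.floor_mono (by linarith)
  have h1 : Icc 1 ⌊2 * y⌋₊ = Icc 1 ⌊y⌋₊ ∪ Ioc ⌊y⌋₊ ⌊2 * y⌋₊ := by
    ext n
    rw [mem_union, mem_Icc, mem_Icc, mem_Ioc]
    omega
  have h2 : Disjoint (Icc 1 ⌊y⌋₊) (Ioc ⌊y⌋₊ ⌊2 * y⌋₊) := by
    rw [Finset.disjoint_left]
    intro n h3 h4
    rw [mem_Icc] at h3
    rw [mem_Ioc] at h4
    omega
  unfold ps
  rw [h1, sum_union h2]
  have h3 : ∑ n ∈ Ioc ⌊y⌋₊ ⌊2 * y⌋₊, ρ n / n ≤ ∑ n ∈ Ioc ⌊y⌋₊ ⌊2 * y⌋₊, ρ n / y := by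
    refine sum_le_sum fun n hn => ?_
    rw [mem_Ioc] at hn
    have h4 : y < n := (Nat.floor_lt (by linarith)).1 hn.1
    exact div_le_div_of_nonneg_left (hρ n) (by linarith) h4.le
  have h4 : ∑ n ∈ Ioc ⌊y⌋₊ ⌊2 * y⌋₊, ρ n / y ≤ g (2 * y) / y := by
    rw [← sum_div]
    refine div_le_div_of_nonneg_right ?_ (by linarith)
    refine le_trans ?_ (hg (2 * y) (by linarith))
    refine sum_le_sum_of_subset_of_nonneg ?_ (fun n _ _ => hρ n)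
    intro n hn
    rw [mem_Ioc] at hn
    rw [mem_Icc]
    omega
  linarith

theorem ps_pow (ρ : ℕ → ℝ) (hρ : ∀ n, 0 ≤ ρ n) (g : ℝ → ℝ) (l : ℝ) (hl0 : 0 ≤ l)
    (hg : ∀ y : ℝ, 1 ≤ y → ∑ n ∈ Icc 1 ⌊y⌋₊, ρ n ≤ g y)
    (hg2 : ∀ y : ℝ, 1 ≤ y → g (2 * y) ≤ l * g y) (x : ℝ) (hx : 1 ≤ x) (J : ℕ) :
    ps ρ (2 ^ J * x) ≤ ps ρ x + g x / x * l * ∑ j ∈ range J, (l / 2) ^ j ∧
      g (2 ^ J * x) ≤ l ^ J * g x := by
  induction J with
  | zero => simp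
  | succ J ih =>
    obtain ⟨h1, h2⟩ := ih
    have hy : (1 : ℝ) ≤ 2 ^ J * x := by
      have : (1 : ℝ) ≤ 2 ^ J := one_le_pow₀ (by norm_num)
      nlinarith
    have h3 := ps_step ρ hρ g hg (2 ^ J * x) hy
    have h4 := hg2 (2 ^ J * x) hy
    have e1 : (2 : ℝ) ^ (J + 1) * x = 2 * (2 ^ J * x) := by ring
    have h5 : g (2 * (2 ^ J * x)) ≤ l ^ (J + 1) * g x := by
      calc g (2 * (2 ^ J * x)) ≤ l * g (2 ^ J * x) := h4
        _ ≤ l * (l ^ J * g x) := mul_le_mul_of_nonneg_left h2 hl0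
        _ = _ := by ring
    rw [e1]
    refine ⟨?_, h5⟩
    rw [sum_range_succ, mul_add]
    have h6 : g (2 * (2 ^ J * x)) / (2 ^ J * x) ≤ g x / x * l * (l / 2) ^ J := by
      calc g (2 * (2 ^ J * x)) / (2 ^ J * x) ≤ l ^ (J + 1) * g x / (2 ^ J * x) :=
            div_le_div_of_nonneg_right h5 (by positivity)
        _ = g x / x * l * (l / 2) ^ J := by
            rw [div_pow]
            field_simp
            ring
    linarith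

theorem tail (ρ : ℕ → ℝ) (hρ : ∀ n, 0 ≤ ρ n) (g : ℝ → ℝ) (l : ℝ) (hl0 : 0 ≤ l) (hl2 : l < 2)
    (hg : ∀ y : ℝ, 1 ≤ y → ∑ n ∈ Icc 1 ⌊y⌋₊, ρ n ≤ g y)
    (hg2 : ∀ y : ℝ, 1 ≤ y → g (2 * y) ≤ l * g y) :
    Summable (fun n : ℕ => ρ n / n) ∧ ∀ x : ℝ, 1 ≤ x →
      ps ρ x ≤ ∑' n : ℕ, ρ n / n ∧
      ∑' n : ℕ, ρ n / n ≤ ps ρ x + g x / x * (2 * l / (2 - l)) := by
  have hterm : ∀ n : ℕ, 0 ≤ ρ n / n := fun n => div_nonneg (hρ n) (Nat.cast_nonneg n)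
  have hgpos : ∀ y : ℝ, 1 ≤ y → 0 ≤ g y := fun y hy =>
    le_trans (sum_nonneg fun n _ => hρ n) (hg y hy)
  have hgeo : ∀ J : ℕ, ∑ j ∈ range J, (l / 2) ^ j ≤ 2 / (2 - l) := by
    intro J
    have h1 : (0 : ℝ) ≤ l / 2 := by positivity
    have h2 : l / 2 < 1 := by linarith
    have h3 : ∑ j ∈ range J, (l / 2) ^ j ≤ (1 - l / 2)⁻¹ := by
      rw [← tsum_geometric_of_lt_one h1 h2]
      exact (summable_geometric_of_lt_one h1 h2).sum_le_tsum _ (fun i _ => by positivity)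
    refine h3.trans (le_of_eq ?_)
    have h4 : (2 - l) ≠ 0 := by linarith
    have h5 : (1 - l / 2) ≠ 0 := by linarith
    field_simp
  -- all finite sums are bounded
  have key : ∀ x : ℝ, 1 ≤ x → ∀ N : ℕ, ∑ n ∈ range N, ρ n / n ≤
      ps ρ x + g x / x * (2 * l / (2 - l)) := by
    intro x hx N
    obtain ⟨J, hJ⟩ := exists_nat_gt (N : ℝ)
    have hJ2 : (N : ℝ) ≤ 2 ^ J * x := by
      have h1 : (J : ℝ) < 2 ^ J := by exact_mod_cast Nat.lt_two_pow_self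
      have h2 : (0 : ℝ) ≤ 2 ^ J := by positivity
      nlinarith
    have h1 : ∑ n ∈ range N, ρ n / n ≤ ps ρ (2 ^ J * x) := by
      unfold ps
      have h2 : ∑ n ∈ range N, ρ n / n = ∑ n ∈ (range N).filter (fun n => n ≠ 0), ρ n / n := by
        rw [sum_filter_of_ne]
        intro n _ hne h0
        apply hne
        rw [h0]
        simp
      rw [h2]
      refine sum_le_sum_of_subset_of_nonneg ?_ (fun n _ _ => hterm n)
      intro n hn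
      rw [mem_filter, mem_range] at hn
      rw [mem_Icc]
      refine ⟨Nat.one_le_iff_ne_zero.2 hn.2, Nat.le_floor ?_⟩
      have h3 : (n : ℝ) ≤ N := by exact_mod_cast hn.1.le
      linarith
    have h2 := (ps_pow ρ hρ g l hl0 hg hg2 x hx J).1
    have h3 : g x / x * l * ∑ j ∈ range J, (l / 2) ^ j ≤ g x / x * (2 * l / (2 - l)) := by
      have h4 : 0 ≤ g x / x * l :=
        mul_nonneg (div_nonneg (hgpos x hx) (by linarith)) hl0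
      calc g x / x * l * ∑ j ∈ range J, (l / 2) ^ j ≤ g x / x * l * (2 / (2 - l)) :=
            mul_le_mul_of_nonneg_left (hgeo J) h4
        _ = _ := by ring
    linarith
  have hsum : Summable (fun n : ℕ => ρ n / n) :=
    summable_of_sum_range_le hterm (key 1 le_rfl)
  refine ⟨hsum, fun x hx => ⟨?_, ?_⟩⟩
  · unfold ps
    exact hsum.sum_le_tsum _ (fun n _ => hterm n)
  · exact hsum.tsum_le_of_sum_range_le (key x hx)

end AFP
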