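import Pool.Agent.AFP.Dec
import Pool.Agent.AFP.Tail

/-!
# All solutions of `σ(a)/a = σ(b)/b`: the asymptotic formula
-/

set_option autoImplicit false

namespace AFP

open Friendly Finset ArithmeticFunction

open Classical in
/-- the contribution of the reduced solutions `(a, n)` -/
noncomputable def rho (n : ℕ) : ℝ :=
  ∑ a ∈ (Icc 1 n).filter (fun a => IsRed a n), dn (a * n).primeFactors

theorem rho_nonneg (n : ℕ) : 0 ≤ rho n :=
  sum_nonneg fun _ _ => (dn_pos fun _ hq => Nat.prime_of_mem_primeFactors hq).le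

open Classical in
theorem sum_redF (X : ℕ) (f : ℕ → ℕ → ℝ) :
    ∑ q ∈ redF X, f q.1 q.2 =
      ∑ n ∈ Icc 1 X, ∑ a ∈ (Icc 1 n).filter (fun a => IsRed a n), f a n := by
  have h1 : redF X = (Icc 1 X).biUnion (fun n =>
      ((Icc 1 n).filter (fun a => IsRed a n)).image (fun a => (a, n))) := by
    ext ⟨a, b⟩
    rw [mem_redF, mem_biUnion]
    constructor
    · rintro ⟨h2, h3⟩
      refine ⟨b, ?_, ?_⟩
      · rw [mem_Icc]
        have h4 := h2.1.1
        have h5 := h2.1.2.1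
        dsimp only at h3 h4 h5
        omega
      · rw [mem_image]
        refine ⟨a, ?_, rfl⟩
        rw [mem_filter, mem_Icc]
        exact ⟨⟨h2.1.1, h2.1.2.1.le⟩, h2⟩
    · rintro ⟨n, h2, h3⟩
      rw [mem_image] at h3
      obtain ⟨a', h4, h5⟩ := h3
      rw [Prod.mk.injEq] at h5
      obtain ⟨rfl, rfl⟩ := h5
      rw [mem_filter] at h4
      rw [mem_Icc] at h2
      exact ⟨h4.2, h2.2⟩
  rw [h1, sum_biUnion]
  · refine sum_congr rfl fun n _ => ?_
    rw [sum_image]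
    intro a _ a' _ h
    exact (Prod.mk.injEq _ _ _ _ ▸ h).1
  · intro n _ n' _ hne
    rw [Function.onFun, Finset.disjoint_left]
    rintro ⟨a, b⟩ h2 h3
    rw [mem_image] at h2 h3
    obtain ⟨_, _, h4⟩ := h2
    obtain ⟨_, _, h5⟩ := h3
    rw [Prod.mk.injEq] at h4 h5
    exact hne (h4.2.trans h5.2.symm)

theorem sum_rho (X : ℕ) : ∑ n ∈ Icc 1 X, rho n = ∑ q ∈ redF X, dn (q.1 * q.2).primeFactors := by
  classical
  rw [sum_redF X (fun a n => dn (a * n).primeFactors)]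
  rfl

theorem ps_rho (x : ℝ) : ps rho x = ∑ q ∈ redF ⌊x⌋₊, dn (q.1 * q.2).primeFactors / q.2 := by
  classical
  rw [sum_redF ⌊x⌋₊ (fun a n => dn (a * n).primeFactors / n)]
  unfold ps
  refine sum_congr rfl fun n _ => ?_
  unfold rho
  rw [sum_div]

theorem sum_rho_le (X : ℕ) : ∑ n ∈ Icc 1 X, rho n ≤ (redF X).card := by
  rw [sum_rho, card_eq_sum_ones]
  push_cast
  exact sum_le_sum fun q _ => dn_le_one fun _ hq => Nat.prime_of_mem_primeFactors hq

/-- the constant -/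
noncomputable def cc : ℝ := ∑' n : ℕ, rho n / n

/-- the general form of the asymptotic formula -/
theorem general (g : ℝ → ℝ) (l : ℝ) (hl0 : 0 ≤ l) (hl2 : l < 2)
    (hg : ∀ y : ℝ, 1 ≤ y → ((redF ⌊y⌋₊).card : ℝ) ≤ g y)
    (hg2 : ∀ y : ℝ, 1 ≤ y → g (2 * y) ≤ l * g y) :
    Summable (fun n : ℕ => rho n / n) ∧ ∀ x : ℝ, 1 ≤ x → ∀ H : ℝ, 0 ≤ H →
      (∀ q ∈ redF ⌊x⌋₊, (2 : ℝ) ^ (q.1 * q.2).primeFactors.card ≤ H) →
      |((solF ⌊x⌋₊).card : ℝ) - cc * x| ≤ g x * (H + 2 * l / (2 - l)) := by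
  classical
  have hg' : ∀ y : ℝ, 1 ≤ y → ∑ n ∈ Icc 1 ⌊y⌋₊, rho n ≤ g y := fun y hy =>
    (sum_rho_le _).trans (hg y hy)
  obtain ⟨hsum, htail⟩ := tail rho rho_nonneg g l hl0 hl2 hg' hg2
  refine ⟨hsum, fun x hx H hH0 hH => ?_⟩
  have hx0 : 0 < x := by linarith
  have hgx : 0 ≤ g x := le_trans (Nat.cast_nonneg _) (hg x hx)
  obtain ⟨h1, h2⟩ := htail x hx
  have h3 : ((solF ⌊x⌋₊).card : ℝ) = ∑ q ∈ redF ⌊x⌋₊,
      (cnt (q.1 * q.2).primeFactors (x / q.2) : ℝ) := by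
    rw [card_solF x]
    push_cast
    rfl
  have h4 : x * ps rho x = ∑ q ∈ redF ⌊x⌋₊, x / q.2 * dn (q.1 * q.2).primeFactors := by
    rw [ps_rho, mul_sum]
    exact sum_congr rfl fun q _ => by ring
  have h5 : |((solF ⌊x⌋₊).card : ℝ) - x * ps rho x| ≤ g x * H := by
    rw [h3, h4, ← sum_sub_distrib]
    calc |∑ q ∈ redF ⌊x⌋₊, ((cnt (q.1 * q.2).primeFactors (x / q.2) : ℝ) -
          x / q.2 * dn (q.1 * q.2).primeFactors)|
        ≤ ∑ q ∈ redF ⌊x⌋₊, |(cnt (q.1 * q.2).primeFactors (x / q.2) : ℝ) -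
          x / q.2 * dn (q.1 * q.2).primeFactors| := abs_sum_le_sum_abs _ _
      _ ≤ ∑ _q ∈ redF ⌊x⌋₊, H := by
          refine sum_le_sum fun q hq => ?_
          refine (cnt_bound _ (fun _ h => Nat.prime_of_mem_primeFactors h) _
            (by positivity)).trans (hH q hq)
      _ = (redF ⌊x⌋₊).card * H := by rw [sum_const, nsmul_eq_mul]
      _ ≤ g x * H := mul_le_mul_of_nonneg_right (hg x hx) hH0
  have h6 : |x * ps rho x - cc * x| ≤ g x * (2 * l / (2 - l)) := by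
    have h7 : cc = ∑' n : ℕ, rho n / n := rfl
    rw [abs_le]
    have h8 : x * (g x / x * (2 * l / (2 - l))) = g x * (2 * l / (2 - l)) := by
      field_simp
    have h9 := mul_le_mul_of_nonneg_left h2 hx0.le
    rw [mul_add, h8] at h9
    have h10 := mul_le_mul_of_nonneg_left h1 hx0.le
    have h11 : 0 ≤ g x * (2 * l / (2 - l)) := by
      refine mul_nonneg hgx (div_nonneg (by linarith) (by linarith))
    rw [h7]
    constructor <;> nlinarith
  calc |((solF ⌊x⌋₊).card : ℝ) - cc * x|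
      = |(((solF ⌊x⌋₊).card : ℝ) - x * ps rho x) + (x * ps rho x - cc * x)| := by
        congr 1
        ring
    _ ≤ |((solF ⌊x⌋₊).card : ℝ) - x * ps rho x| + |x * ps rho x - cc * x| := abs_add_le _ _
    _ ≤ g x * H + g x * (2 * l / (2 - l)) := add_le_add h5 h6
    _ = _ := by ring

end AFP
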