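import Pool.Agent.AFP.Fin

/-!
# All solutions of `σ(a)/a = σ(b)/b`: the ratios `a/b`

There are finitely many primitive solutions if and only if `a / b` takes finitely many values at the
solutions.
-/

set_option autoImplicit false

namespace AFP

open Friendly Finset ArithmeticFunction

/-- the reduced part of a primitive solution `(n α, n β)` with coprime `α, β`: all primes of `n` divide
`α β` -/
theorem prim_support {α β n : ℕ} (h : IsPrimitive (n * α) (n * β)) (hn : 0 < n) (hα : 0 < α)
    (hβ : 0 < β) : n.primeFactors ⊆ (α * β).primeFactors := by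
  intro p hp
  by_contra hpS
  rw [Nat.primeFactors_mul hα.ne' hβ.ne', mem_union, not_or] at hpS
  have hpS' := hpS
  simp only [← Nat.support_factorization, Finsupp.notMem_support_iff] at hpS
  have h1 : p ∈ (n * α * (n * β)).primeFactors := by
    rw [Nat.primeFactors_mul (by positivity) (by positivity), Nat.primeFactors_mul hn.ne' hα.ne']
    exact mem_union_left _ (mem_union_left _ hp)
  apply prim_ne h h1
  rw [Nat.factorization_mul hn.ne' hα.ne', Nat.factorization_mul hn.ne' hβ.ne', Finsupp.add_apply,
    Finsupp.add_apply, hpS.1, hpS.2]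

/-- primitive solutions with the same ratio: none divides another one -/
theorem prim_antichain {α β n k : ℕ} (h : IsPrimitive (n * α) (n * β))
    (h' : IsPrimitive (k * α) (k * β)) (hd : n ∣ k) : n = k := by
  obtain ⟨d, rfl⟩ := hd
  by_contra hne
  have hnd : 0 < n * d := by
    rcases Nat.eq_zero_or_pos (n * d) with h0 | h0
    · exfalso
      have := h'.1.1
      rw [h0, zero_mul] at this
      exact lt_irrefl _ this
    · exact h0
  have hd0 : d ≠ 0 := by
    rintro rfl
    simp at hnd
  have hd1 : 1 < d := by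
    rcases Nat.lt_or_ge 1 d with h1 | h1
    · exact h1
    · exfalso
      apply hne
      have : d = 1 := by omega
      rw [this, mul_one]
  refine h'.2 d hd1 ⟨n * α, by ring⟩ ⟨n * β, by ring⟩ ?_
  have e1 : n * d * α / d = n * α := by
    rw [show n * d * α = d * (n * α) by ring, Nat.mul_div_cancel_left _ (by omega)]
  have e2 : n * d * β / d = n * β := by
    rw [show n * d * β = d * (n * β) by ring, Nat.mul_div_cancel_left _ (by omega)]
  rw [e1, e2]
  exact h.1

/-- finitely many primitive solutions have a given ratio -/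
theorem finite_ratio {α β : ℕ} (hα : 0 < α) (hβ : 0 < β) :
    {n : ℕ | 0 < n ∧ IsPrimitive (n * α) (n * β)}.Finite := by
  classical
  set S := (α * β).primeFactors with hS
  set D := {n : ℕ | 0 < n ∧ IsPrimitive (n * α) (n * β)} with hD
  let f : ℕ → (S → ℕ) := fun n p => n.factorization p.1
  have hsub : ∀ n ∈ D, n.primeFactors ⊆ S := fun n hn => prim_support hn.2 hn.1 hα hβ
  have hdvd : ∀ n ∈ D, ∀ k ∈ D, f n ≤ f k → n ∣ k := by
    intro n hn k hk hle
    rw [← Nat.factorization_le_iff_dvd hn.1.ne' hk.1.ne']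
    intro p
    by_cases hp : p ∈ S
    · exact hle ⟨p, hp⟩
    · have h2 : n.factorization p = 0 := by
        rw [← Finsupp.notMem_support_iff, Nat.support_factorization]
        exact fun h => hp (hsub n hn h)
      rw [h2]
      exact Nat.zero_le _
  have hinj : Set.InjOn f D := by
    intro n hn k hk heq
    exact Nat.dvd_antisymm (hdvd n hn k hk heq.le) (hdvd k hk n hn heq.ge)
  have hanti : IsAntichain (· ≤ ·) (f '' D) := by
    rintro _ ⟨n, hn, rfl⟩ _ ⟨k, hk, rfl⟩ hne hle
    apply hne
    rw [prim_antichain hn.2 hk.2 (hdvd n hn k hk hle)]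
  have hfin : (f '' D).Finite := hanti.finite_of_wellQuasiOrdered wellQuasiOrdered_le
  exact hfin.of_finite_image hinj

theorem ratio_iff : {q : ℕ × ℕ | IsPrimitive q.1 q.2}.Finite ↔
    {r : ℚ | ∃ a b : ℕ, IsSolution a b ∧ r = (a : ℚ) / b}.Finite := by
  constructor
  · intro h
    refine (h.image fun q => ((q.1 : ℚ) / q.2)).subset ?_
    rintro _ ⟨A, B, hsol, rfl⟩
    obtain ⟨a, b, d, h1, rfl, rfl⟩ := exists_prim A B hsol
    refine ⟨(a, b), h1, ?_⟩
    have hd : (d : ℚ) ≠ 0 := by
      intro h0
      have h2 : d = 0 := by exact_mod_cast h0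
      have := hsol.1
      rw [h2, zero_mul] at this
      exact lt_irrefl _ this
    push_cast
    rw [mul_div_mul_left _ _ hd]
  · intro h
    have hsub : {q : ℕ × ℕ | IsPrimitive q.1 q.2} ⊆
        ⋃ r ∈ {r : ℚ | ∃ a b : ℕ, IsSolution a b ∧ r = (a : ℚ) / b},
          (fun n => (n * r.num.toNat, n * r.den)) ''
            {n : ℕ | 0 < n ∧ IsPrimitive (n * r.num.toNat) (n * r.den)} := by
      rintro ⟨a, b⟩ hab
      rw [Set.mem_iUnion₂]
      have hab' : IsPrimitive a b := hab
      have ha : 0 < a := hab'.1.1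
      have hb : 0 < b := hab'.1.1.trans hab'.1.2.1
      have hg : 0 < Nat.gcd a b := Nat.gcd_pos_of_pos_left b ha
      set r : ℚ := (a : ℚ) / b with hr
      have hr' : r = ((a / Nat.gcd a b : ℕ) : ℚ) / ((b / Nat.gcd a b : ℕ) : ℚ) := by
        rw [hr, Nat.cast_div (Nat.gcd_dvd_left a b) (by exact_mod_cast hg.ne'),
          Nat.cast_div (Nat.gcd_dvd_right a b) (by exact_mod_cast hg.ne')]
        have : ((Nat.gcd a b : ℕ) : ℚ) ≠ 0 := by exact_mod_cast hg.ne'
        field_simp
      have hcop : Nat.Coprime (a / Nat.gcd a b) (b / Nat.gcd a b) :=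
        Nat.coprime_div_gcd_div_gcd hg
      have hb2 : 0 < b / Nat.gcd a b := Nat.div_pos (Nat.gcd_le_right a hb) hg
      have hnum : r.num.toNat = a / Nat.gcd a b := by
        rw [hr']
        have := Rat.num_div_eq_of_coprime (a := ((a / Nat.gcd a b : ℕ) : ℤ))
          (b := ((b / Nat.gcd a b : ℕ) : ℤ)) (by exact_mod_cast hb2)
          (by rw [Int.natAbs_natCast, Int.natAbs_natCast]; exact hcop)
        simp only [Int.cast_natCast] at this
        rw [this, Int.toNat_natCast]
      have hden : r.den = b / Nat.gcd a b := by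
        rw [hr']
        have := Rat.den_div_eq_of_coprime (a := ((a / Nat.gcd a b : ℕ) : ℤ))
          (b := ((b / Nat.gcd a b : ℕ) : ℤ)) (by exact_mod_cast hb2)
          (by rw [Int.natAbs_natCast, Int.natAbs_natCast]; exact hcop)
        simp only [Int.cast_natCast] at this
        exact_mod_cast this
      refine ⟨r, ⟨a, b, hab'.1, rfl⟩, Nat.gcd a b, ?_, ?_⟩
      · rw [Set.mem_ofPred_eq, hnum, hden, Nat.mul_div_cancel' (Nat.gcd_dvd_left a b),
          Nat.mul_div_cancel' (Nat.gcd_dvd_right a b)]
        exact ⟨hg, hab'⟩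
      · change (Nat.gcd a b * r.num.toNat, Nat.gcd a b * r.den) = (a, b)
        rw [hnum, hden, Nat.mul_div_cancel' (Nat.gcd_dvd_left a b),
          Nat.mul_div_cancel' (Nat.gcd_dvd_right a b)]
    refine Set.Finite.subset (Set.Finite.biUnion h fun r hr => ?_) hsub
    obtain ⟨a, b, hsol, rfl⟩ := hr
    refine Set.Finite.image _ (finite_ratio ?_ ?_)
    · have h1 : 0 < ((a : ℚ) / b).num := by
        rw [Rat.num_pos]
        have ha : (0 : ℚ) < a := by exact_mod_cast hsol.1
        have hb : (0 : ℚ) < b := by exact_mod_cast hsol.1.trans hsol.2.1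
        positivity
      omega
    · exact Rat.den_pos _

end AFP
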