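import Pool.Agent.Lib_helper24.Friendly.Final

/-!
# All solutions of `σ(a)/a = σ(b)/b`: reduced solutions

A solution `(a, b)` is reduced if no prime divides `a` and `b` exactly to the same power. The count of
the primitive solutions in `Lib_helper24/Friendly` uses only this property.
-/

set_option autoImplicit false

namespace AFP

open Friendly Finset ArithmeticFunction Relation

/-- a reduced solution: each prime factor of `a b` has different exponents in `a` and in `b` -/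
def IsRed (a b : ℕ) : Prop :=
  IsSolution a b ∧ ∀ p ∈ (a * b).primeFactors, a.factorization p ≠ b.factorization p

theorem exists_seed {a b : ℕ} (h : IsRed a b) : ∃ Z, IsSeed a b Z := by
  classical
  have ha : 0 < a := h.1.1
  have hb : 0 < b := h.1.1.trans h.1.2.1
  set V := (a * b).primeFactors with hV
  obtain ⟨Z, A, hZV, hZ, hdis, hgen⟩ := exists_sources V (Hit a b) (fun q p hqp => ⟨hqp.1, hqp.2.1⟩)
  refine ⟨Z, hZV, hgen, ?_⟩
  set Z1 := Z.filter (fun z => 5 ≤ z ∧ ¬ ∃ n, z = v n) with hZ1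
  have key : ∀ z ∈ Z1, z ^ 5 ≤ ∏ y ∈ A z, y ^ (a.factorization y + b.factorization y) := by
    intro z hz
    rw [hZ1, mem_filter] at hz
    obtain ⟨hzZ, hz5, hzv⟩ := hz
    obtain ⟨hzA, hAV, hmin, hclosed⟩ := hZ z hzZ
    have hpr : ∀ y ∈ A z, y.Prime := fun y hy => Nat.prime_of_mem_primeFactors (hAV hy)
    have hhit : ∀ y ∈ A z, ∃ q ∈ A z, q ≠ y ∧ y ∣ s q
        (if a.factorization y < b.factorization y then b.factorization q
          else a.factorization q) := by
      intro y hy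
      obtain ⟨q, hq, hqy, hd⟩ := hit h.1 (hpr y hy) (h.2 y (hAV hy))
      refine ⟨q, hclosed y hy q ⟨hq, hAV hy, ?_⟩, hqy, hd⟩
      split_ifs at hd
      · exact dvd_mul_of_dvd_right hd _
      · exact dvd_mul_of_dvd_left hd _
    rcases local_lemma (A z) z hzA hmin hpr hz5 a.factorization b.factorization
      (fun y hy => h.2 y (hAV hy)) hhit with h1 | ⟨P, hP, h1, h2, h3⟩
    · calc z ^ 5 ≤ z ^ (∑ y ∈ A z, (a.factorization y + b.factorization y)) :=
            Nat.pow_le_pow_right (by omega) h1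
        _ = ∏ y ∈ A z, z ^ (a.factorization y + b.factorization y) :=
            (prod_pow_eq_pow_sum _ _ _).symm
        _ ≤ _ := prod_le_prod' (fun y hy => Nat.pow_le_pow_left (hmin y hy) _)
    · exfalso
      apply hzv
      obtain ⟨n, hn, _⟩ := vieta_chain z P (by omega) h1 h3 h2
      exact ⟨n, hn⟩
  have hsubZ : Z1 ⊆ Z := filter_subset _ _
  calc (∏ z ∈ Z1, z) ^ 5 = ∏ z ∈ Z1, z ^ 5 := (prod_pow _ _ _).symm
    _ ≤ ∏ z ∈ Z1, ∏ y ∈ A z, y ^ (a.factorization y + b.factorization y) :=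
        prod_le_prod' key
    _ = ∏ y ∈ Z1.biUnion A, y ^ (a.factorization y + b.factorization y) := by
        rw [prod_biUnion]
        intro z hz z' hz' hne
        exact hdis z (hsubZ hz) z' (hsubZ hz') hne
    _ ≤ ∏ y ∈ V, y ^ (a.factorization y + b.factorization y) := by
        apply prod_le_prod_of_subset_of_one_le'
        · intro y hy
          rw [mem_biUnion] at hy
          obtain ⟨z, hz, hy⟩ := hy
          exact (hZ z (hsubZ hz)).2.1 hy
        · intro y hy _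
          exact Nat.one_le_pow _ _ (Nat.prime_of_mem_primeFactors hy).pos
    _ = a * b := prod_weights ha.ne' hb.ne'

/-- the reduced solutions with `a b ≤ N` -/
noncomputable def redPairs (N : ℕ) : Finset (ℕ × ℕ) := by
  classical
  exact ((Icc 1 N) ×ˢ (Icc 1 N)).filter (fun x => IsRed x.1 x.2 ∧ x.1 * x.2 ≤ N)

theorem mem_redPairs {N : ℕ} {x : ℕ × ℕ} :
    x ∈ redPairs N ↔ IsRed x.1 x.2 ∧ x.1 * x.2 ≤ N := by
  classical
  unfold redPairs
  rw [mem_filter, mem_product, mem_Icc, mem_Icc]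
  constructor
  · exact fun h => h.2
  · intro h
    have h1 : 0 < x.1 := h.1.1.1
    have h2 : x.1 < x.2 := h.1.1.2.1
    refine ⟨⟨⟨h1, ?_⟩, ⟨by omega, ?_⟩⟩, h⟩
    · exact (Nat.le_mul_of_pos_right _ (by omega)).trans h.2
    · exact (Nat.le_mul_of_pos_left _ h1).trans h.2

open Classical in
/-- a chosen seed -/
noncomputable def seedOf (x : ℕ × ℕ) : Finset ℕ :=
  if h : IsRed x.1 x.2 then (exists_seed h).choose else ∅

theorem seedOf_spec {x : ℕ × ℕ} (h : IsRed x.1 x.2) : IsSeed x.1 x.2 (AFP.seedOf x) := by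
  unfold AFP.seedOf
  rw [dif_pos h]
  exact (exists_seed h).choose_spec

/-- The main count. -/
theorem card_redPairs_le (ε : ℝ) (hε : 0 < ε) :
    ∃ C : ℝ, 0 < C ∧ ∀ N : ℕ, 1 ≤ N → ((redPairs N).card : ℝ) ≤ C * (N : ℝ) ^ ((1 : ℝ) / 5 + ε) := by
  classical
  set t : ℝ := (2 : ℝ) ^ (-(ε / 4)) with ht
  have ht0 : 0 < t := by positivity
  have ht1 : t < 1 := Real.rpow_lt_one_of_one_lt_of_neg (by norm_num) (by linarith)
  have h1t : 0 < 1 - t := by linarith
  set c : ℝ := -Real.log (1 - t) with hc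
  have hc0 : 0 < c := by
    rw [hc]
    have := Real.log_neg h1t (by linarith)
    linarith
  obtain ⟨K, hK2, hKc⟩ : ∃ K : ℕ, 2 ≤ K ∧ 6 * c ≤ ε / 4 * Real.log K := by
    obtain ⟨k, hk⟩ := exists_nat_ge (Real.exp (24 * c / ε))
    refine ⟨k + 2, by omega, ?_⟩
    have h1 : 24 * c / ε ≤ Real.log ((k + 2 : ℕ) : ℝ) := by
      rw [Real.le_log_iff_exp_le (by positivity)]
      push_cast
      linarith
    rw [div_le_iff₀ hε] at h1
    linarith
  have hlogK : 0 < Real.log K := Real.log_pos (by exact_mod_cast hK2)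
  refine ⟨32 * Real.exp (1 / (1 - t)) * Real.exp (4 * c * K), by positivity, ?_⟩
  intro N hN
  have hNr : (1 : ℝ) ≤ N := by exact_mod_cast hN
  have hN0 : (0 : ℝ) < N := by linarith
  have hlogN : 0 ≤ Real.log N := Real.log_nonneg hNr
  set L := Nat.log 2 N with hL
  -- the power of t
  have htL : t⁻¹ ^ L ≤ (N : ℝ) ^ (ε / 4) := by
    have h1 : t⁻¹ = (2 : ℝ) ^ (ε / 4) := by
      rw [ht, ← Real.rpow_neg (by norm_num), neg_neg]
    rw [h1, ← Real.rpow_natCast, ← Real.rpow_mul (by norm_num), mul_comm, Real.rpow_mul (by norm_num),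
      Real.rpow_natCast]
    apply Real.rpow_le_rpow (by positivity) _ (by linarith)
    have : 2 ^ L ≤ N := Nat.pow_log_le_self 2 (by omega)
    exact_mod_cast this
  -- the bound for the fibres
  set ℓ : ℕ := ⌊2 * (K : ℝ) + 3 * (Real.log N / Real.log K)⌋₊ with hℓ
  have hℓle : (ℓ : ℝ) ≤ 2 * (K : ℝ) + 3 * (Real.log N / Real.log K) := Nat.floor_le (by positivity)
  have hq : (((1 - t) ^ 2)⁻¹) ^ ℓ ≤ Real.exp (4 * c * K) * (N : ℝ) ^ (ε / 4) := by
    have h1 : ((1 - t) ^ 2)⁻¹ = Real.exp (2 * c) := by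
      rw [hc, show 2 * -Real.log (1 - t) = -(2 * Real.log (1 - t)) by ring, Real.exp_neg]
      congr 1
      rw [show (2 : ℝ) * Real.log (1 - t) = Real.log ((1 - t) ^ 2) by
        rw [Real.log_pow]; norm_num, Real.exp_log (by positivity)]
    rw [h1, ← Real.exp_nat_mul, Real.rpow_def_of_pos hN0, ← Real.exp_add]
    apply Real.exp_le_exp.2
    calc (ℓ : ℝ) * (2 * c) ≤ (2 * (K : ℝ) + 3 * (Real.log N / Real.log K)) * (2 * c) :=
          mul_le_mul_of_nonneg_right hℓle (by positivity)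
      _ = 4 * c * K + Real.log N * (6 * c / Real.log K) := by
          field_simp
          ring
      _ ≤ 4 * c * K + Real.log N * (ε / 4) := by
          have h2 : 6 * c / Real.log K ≤ ε / 4 := by
            rw [div_le_iff₀ hlogK]
            exact hKc
          have := mul_le_mul_of_nonneg_left h2 hlogN
          linarith
  -- the fibration
  have hmaps : Set.MapsTo (fun x => code N (AFP.seedOf x)) (redPairs N : Set (ℕ × ℕ)) (codes N) := by
    intro x hx
    rw [mem_coe, mem_redPairs] at hx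
    exact code_mem hx.1.1.1 (hx.1.1.1.trans hx.1.1.2.1) hx.2 (seedOf_spec hx.1)
  have hfib : ∀ τ ∈ codes N, (((redPairs N).filter (fun x => code N (AFP.seedOf x) = τ)).card : ℝ) ≤
      t⁻¹ ^ L * (((1 - t) ^ 2)⁻¹) ^ ℓ := by
    intro τ _
    apply fiber_bound t ht0 ht1 N ℓ (decode τ)
    intro x hx
    rw [mem_filter, mem_redPairs] at hx
    obtain ⟨⟨hp, hle⟩, hτ⟩ := hx
    have hx1 : 0 < x.1 := hp.1.1
    have hx2 : 0 < x.2 := hp.1.1.trans hp.1.2.1
    have hs := seedOf_spec hp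
    have hdec : decode τ = AFP.seedOf x := by
      rw [← hτ]
      exact decode_code hx1 hx2 hle hs
    rw [hdec]
    refine ⟨hx1, hx2, hle, hs, ?_⟩
    rw [hℓ]
    apply Nat.le_floor
    exact expl_card_le hx1 hx2 hle hs hK2
  have hcard := card_eq_sum_card_fiberwise hmaps
  have hsum : ((redPairs N).card : ℝ) ≤ (codes N).card * (t⁻¹ ^ L * (((1 - t) ^ 2)⁻¹) ^ ℓ) := by
    rw [hcard]
    push_cast
    rw [← nsmul_eq_mul]
    exact sum_le_card_nsmul _ _ _ hfib
  have hcodes := card_codes_le t ht0 ht1 N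
  calc ((redPairs N).card : ℝ) ≤ (codes N).card * (t⁻¹ ^ L * (((1 - t) ^ 2)⁻¹) ^ ℓ) := hsum
    _ ≤ (32 * (N : ℝ) ^ ((1 : ℝ) / 5) * (t⁻¹ ^ L * Real.exp (1 / (1 - t)))) *
        (t⁻¹ ^ L * (((1 - t) ^ 2)⁻¹) ^ ℓ) := mul_le_mul_of_nonneg_right hcodes (by positivity)
    _ ≤ (32 * (N : ℝ) ^ ((1 : ℝ) / 5) * ((N : ℝ) ^ (ε / 4) * Real.exp (1 / (1 - t)))) *
        ((N : ℝ) ^ (ε / 4) * (Real.exp (4 * c * K) * (N : ℝ) ^ (ε / 4))) := by
        gcongr
    _ = 32 * Real.exp (1 / (1 - t)) * Real.exp (4 * c * K) *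
        (N : ℝ) ^ ((1 : ℝ) / 5 + ε / 4 + ε / 4 + ε / 4) := by
        rw [Real.rpow_add hN0, Real.rpow_add hN0, Real.rpow_add hN0]
        ring
    _ ≤ 32 * Real.exp (1 / (1 - t)) * Real.exp (4 * c * K) * (N : ℝ) ^ ((1 : ℝ) / 5 + ε) := by
        refine mul_le_mul_of_nonneg_left ?_ (by positivity)
        exact Real.rpow_le_rpow_of_exponent_le hNr (by linarith)


end AFP
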